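import Pool.Agent.H3.HalfLapMain

/-!
# The torsion function of the half Laplacian of a bounded convex set is concave
-/

set_option autoImplicit false

open Filter Topology MeasureTheory

namespace Pool.Agent.Results.MP_ced2fd_an.TorsionConcave

/-- The usual normalising constant `2^α Γ((d+α)/2) / (π^(d/2) |Γ(-α/2)|)`. -/
noncomputable def normConst (d : ℕ) (α : ℝ) : ℝ :=
  2 ^ α * Real.Gamma ((d + α) / 2) / (Real.pi ^ ((d : ℝ) / 2) * |Real.Gamma (-α / 2)|)

/-- `(-Δ)^(α/2) u = v` at the point `x`, as a principal value. -/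
def FracLaplacianEq (d : ℕ) (α : ℝ) (u : EuclideanSpace ℝ (Fin d) → ℝ)
    (x : EuclideanSpace ℝ (Fin d)) (v : ℝ) : Prop :=
  Tendsto (fun ε : ℝ => normConst d α *
      ∫ y in {y : EuclideanSpace ℝ (Fin d) | ε < ‖x - y‖},
        (u x - u y) / ‖x - y‖ ^ ((d : ℝ) + α))
    (𝓝[>] (0 : ℝ)) (𝓝 v)

/-- `φ` is a torsion function of `D`: continuous on the whole space, `(-Δ)^(α/2) φ = 1` at each
point of `D`, and `φ = 0` off `D`. -/
structure IsTorsion (d : ℕ) (α : ℝ) (D : Set (EuclideanSpace ℝ (Fin d)))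
    (φ : EuclideanSpace ℝ (Fin d) → ℝ) : Prop where
  continuous : Continuous φ
  eq_one : ∀ x ∈ D, FracLaplacianEq d α φ x 1
  eq_zero : ∀ x, x ∉ D → φ x = 0

theorem normConst_pos (d : ℕ) : 0 < normConst d 1 := by
  unfold normConst
  have h1 : Real.Gamma (-1 / 2) ≠ 0 := by
    apply Real.Gamma_ne_zero
    intro m h
    have h2 : (m : ℝ) = 1 / 2 := by linarith
    have h3 : ((2 * m : ℕ) : ℝ) = ((1 : ℕ) : ℝ) := by push_cast; linarith
    have h4 : 2 * m = 1 := by exact_mod_cast h3
    omega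
  have h2 : 0 < Real.Gamma (((d : ℝ) + 1) / 2) := Real.Gamma_pos_of_pos (by positivity)
  have h3 : 0 < |Real.Gamma (-1 / 2)| := abs_pos.2 h1
  have h4 : 0 < Real.pi ^ ((d : ℝ) / 2) := Real.rpow_pos_of_pos Real.pi_pos _
  positivity

theorem pv_nonpos {d : ℕ} {φ : EuclideanSpace ℝ (Fin d) → ℝ} {x : EuclideanSpace ℝ (Fin d)}
    (h : ∀ y, φ x ≤ φ y) : ¬ FracLaplacianEq d 1 φ x 1 := by
  intro hx
  have h1 : (1 : ℝ) ≤ 0 := by
    refine le_of_tendsto hx (Eventually.of_forall fun ε => ?_)
    refine mul_nonpos_of_nonneg_of_nonpos (normConst_pos d).le ?_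
    refine integral_nonpos fun y => ?_
    exact div_nonpos_of_nonpos_of_nonneg (by linarith [h y]) (by positivity)
  linarith

theorem torsion_pos {d : ℕ} {D : Set (EuclideanSpace ℝ (Fin d))}
    (hDb : Bornology.IsBounded D) {φ : EuclideanSpace ℝ (Fin d) → ℝ} (h : IsTorsion d 1 D φ) :
    ∀ x ∈ D, 0 < φ x := by
  intro x hx
  by_contra hneg
  push Not at hneg
  obtain ⟨m, -, hmin⟩ := hDb.isCompact_closure.exists_isMinOn ⟨x, subset_closure hx⟩
    h.continuous.continuousOn
  have hmx : φ m ≤ φ x := hmin (subset_closure hx)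
  have hglob : ∀ y, φ m ≤ φ y := by
    intro y
    by_cases hy : y ∈ D
    · exact hmin (subset_closure hy)
    · rw [h.eq_zero y hy]; linarith
  by_cases hm : m ∈ D
  · exact pv_nonpos hglob (h.eq_one m hm)
  · have hm0 := h.eq_zero m hm
    refine pv_nonpos (x := x) (fun y => ?_) (h.eq_one x hx)
    have := hglob y
    linarith

theorem torsion_concave {d : ℕ} (hd : 1 ≤ d) {D : Set (EuclideanSpace ℝ (Fin d))}
    (hDo : IsOpen D) (hDc : Convex ℝ D) (hDb : Bornology.IsBounded D)
    {φ : EuclideanSpace ℝ (Fin d) → ℝ} (h : IsTorsion d 1 D φ) : ConcaveOn ℝ D φ := by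
  have : Nonempty (Fin d) := ⟨⟨0, by omega⟩⟩
  have : Nontrivial (EuclideanSpace ℝ (Fin d)) := inferInstance
  have hfr : Module.finrank ℝ (EuclideanSpace ℝ (Fin d)) = d := by simp
  have hc := normConst_pos d
  set c := normConst d 1 with hcdef
  have key : ConcaveOn ℝ D (fun x => c * φ x) := by
    refine Pool.Agent.H3.HalfLap.main_concave D hDo hDc hDb _ (continuous_const.mul h.continuous)
      (fun x hx => by rw [h.eq_zero x hx, mul_zero]) ?_
    intro x hx
    rw [hfr]
    refine (h.eq_one x hx).congr fun ε => ?_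
    rw [← hcdef, ← integral_const_mul]
    refine integral_congr_ae (Eventually.of_forall fun y => ?_)
    have he : ‖x - y‖ ^ ((d : ℝ) + 1) = ‖x - y‖ ^ (d + 1) := by
      rw [← Real.rpow_natCast]
      push_cast
      rfl
    simp only [he]
    ring
  refine ⟨hDc, fun x hx y hy a b ha hb hab => ?_⟩
  have h1 := key.2 hx hy ha hb hab
  simp only [smul_eq_mul] at h1 ⊢
  nlinarith

theorem torsion_bounded {d : ℕ} {D : Set (EuclideanSpace ℝ (Fin d))}
    (hDb : Bornology.IsBounded D) {φ : EuclideanSpace ℝ (Fin d) → ℝ} (h : IsTorsion d 1 D φ) :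
    ∃ C, ∀ x, |φ x| ≤ C := by
  have hs : HasCompactSupport φ :=
    HasCompactSupport.intro hDb.isCompact_closure
      fun x hx => h.eq_zero x fun hxD => hx (subset_closure hxD)
  obtain ⟨C, hC⟩ := h.continuous.bounded_above_of_compact_support hs
  exact ⟨C, fun x => by simpa [Real.norm_eq_abs] using hC x⟩

theorem integrable_kernel {d : ℕ} (x : EuclideanSpace ℝ (Fin d)) {ε : ℝ} (hε : 0 < ε) :
    IntegrableOn (fun y : EuclideanSpace ℝ (Fin d) => 1 / ‖x - y‖ ^ ((d : ℝ) + 1))
      {y | ε < ‖x - y‖} := by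
  have hms : MeasurableSet {h : EuclideanSpace ℝ (Fin d) | ε < ‖h‖} :=
    measurableSet_lt measurable_const measurable_norm
  have hms2 : MeasurableSet {y : EuclideanSpace ℝ (Fin d) | ε < ‖x - y‖} :=
    measurableSet_lt measurable_const (measurable_norm.comp (measurable_const.sub measurable_id))
  have h1 := Pool.Agent.H3.HalfLap.integrable_far (E := EuclideanSpace ℝ (Fin d)) hε
  rw [← integrable_indicator_iff hms] at h1
  have h2 := h1.comp_sub_left x
  rw [← integrable_indicator_iff hms2]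
  refine h2.congr (Eventually.of_forall fun y => ?_)
  have hfr : Module.finrank ℝ (EuclideanSpace ℝ (Fin d)) = d := by simp
  beta_reduce
  by_cases hy : ε < ‖x - y‖
  · rw [Set.indicator_of_mem (show x - y ∈ {h : EuclideanSpace ℝ (Fin d) | ε < ‖h‖} from hy),
      Set.indicator_of_mem (show y ∈ {y : EuclideanSpace ℝ (Fin d) | ε < ‖x - y‖} from hy), hfr,
      ← Real.rpow_natCast]
    push_cast
    rfl
  · rw [Set.indicator_of_notMem (show x - y ∉ {h : EuclideanSpace ℝ (Fin d) | ε < ‖h‖} from hy),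
      Set.indicator_of_notMem (show y ∉ {y : EuclideanSpace ℝ (Fin d) | ε < ‖x - y‖} from hy)]

theorem integrable_diff {d : ℕ} {φ : EuclideanSpace ℝ (Fin d) → ℝ} (hφ : Continuous φ)
    (hb : ∃ C, ∀ x, |φ x| ≤ C) (x : EuclideanSpace ℝ (Fin d)) {ε : ℝ} (hε : 0 < ε) :
    IntegrableOn (fun y => (φ x - φ y) / ‖x - y‖ ^ ((d : ℝ) + 1)) {y | ε < ‖x - y‖} := by
  obtain ⟨C, hC⟩ := hb
  have h1 : IntegrableOn (fun y => (φ x - φ y) * (1 / ‖x - y‖ ^ ((d : ℝ) + 1)))
      {y | ε < ‖x - y‖} := by
    refine (integrable_kernel x hε).bdd_mul (c := 2 * C)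
      ((continuous_const.sub hφ).aestronglyMeasurable) (Eventually.of_forall fun y => ?_)
    rw [Real.norm_eq_abs]
    have h2 := abs_sub (φ x) (φ y)
    linarith [hC x, hC y]
  refine h1.congr (Eventually.of_forall fun y => ?_)
  simp only
  rw [mul_one_div]

theorem torsion_le {d : ℕ} (hd : 1 ≤ d) {D : Set (EuclideanSpace ℝ (Fin d))}
    (hDb : Bornology.IsBounded D) {φ ψ : EuclideanSpace ℝ (Fin d) → ℝ}
    (hφ : IsTorsion d 1 D φ) (hψ : IsTorsion d 1 D ψ) : ∀ x, φ x ≤ ψ x := by
  intro x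
  by_contra hneg
  push Not at hneg
  have : Nonempty (Fin d) := ⟨⟨0, by omega⟩⟩
  have : Nontrivial (EuclideanSpace ℝ (Fin d)) := inferInstance
  have hxD : x ∈ D := by
    by_contra hx
    rw [hφ.eq_zero x hx, hψ.eq_zero x hx] at hneg
    exact lt_irrefl _ hneg
  obtain ⟨m, -, hmax⟩ := hDb.isCompact_closure.exists_isMaxOn ⟨x, subset_closure hxD⟩
    (hφ.continuous.sub hψ.continuous).continuousOn
  have hmx : φ x - ψ x ≤ φ m - ψ m := hmax (subset_closure hxD)
  have hpos : 0 < φ m - ψ m := by linarith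
  have hmD : m ∈ D := by
    by_contra hm
    rw [hφ.eq_zero m hm, hψ.eq_zero m hm] at hpos
    simp at hpos
  have hglob : ∀ y, φ y - ψ y ≤ φ m - ψ m := by
    intro y
    by_cases hy : y ∈ D
    · exact hmax (subset_closure hy)
    · rw [hφ.eq_zero y hy, hψ.eq_zero y hy]; linarith
  obtain ⟨R, hR⟩ := hDb.subset_ball m
  have hR0 : 0 < R := by
    have := hR hmD
    simpa using this
  set M := φ m - ψ m with hM
  set F : Set (EuclideanSpace ℝ (Fin d)) := {y | R < ‖m - y‖} with hF
  have hFo : IsOpen F := isOpen_lt continuous_const (continuous_const.sub continuous_id).norm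
  have hFne : F.Nonempty := by
    obtain ⟨v, hv⟩ := exists_norm_eq (EuclideanSpace ℝ (Fin d)) (show (0 : ℝ) ≤ R + 1 by linarith)
    refine ⟨m - v, ?_⟩
    show R < ‖m - (m - v)‖
    rw [sub_sub_cancel, hv]
    linarith
  have hker := integrable_kernel m hR0
  have hδ : 0 < ∫ y in F, M * (1 / ‖m - y‖ ^ ((d : ℝ) + 1)) := by
    rw [setIntegral_pos_iff_support_of_nonneg_ae]
    · have hsub : F ⊆ Function.support (fun y : EuclideanSpace ℝ (Fin d) =>
          M * (1 / ‖m - y‖ ^ ((d : ℝ) + 1))) ∩ F := by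
        intro y hy
        have hy' : R < ‖m - y‖ := hy
        have h0 : 0 < ‖m - y‖ := hR0.trans hy'
        refine ⟨?_, hy⟩
        simp only [Function.mem_support]
        positivity
      exact lt_of_lt_of_le (hFo.measure_pos volume hFne) (measure_mono hsub)
    · exact Eventually.of_forall fun y => by
        simp only [Pi.zero_apply]
        positivity
    · exact hker.const_mul M
  have hlim := (hφ.eq_one m hmD).sub (hψ.eq_one m hmD)
  simp only [sub_self] at hlim
  have hc := normConst_pos d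
  have hle : normConst d 1 * (∫ y in F, M * (1 / ‖m - y‖ ^ ((d : ℝ) + 1))) ≤ 0 := by
    refine ge_of_tendsto hlim ?_
    filter_upwards [Ioo_mem_nhdsGT hR0] with ε hε
    rw [← mul_sub]
    refine mul_le_mul_of_nonneg_left ?_ hc.le
    rw [← integral_sub (integrable_diff hφ.continuous (torsion_bounded hDb hφ) m hε.1)
      (integrable_diff hψ.continuous (torsion_bounded hDb hψ) m hε.1)]
    have hms : MeasurableSet {y : EuclideanSpace ℝ (Fin d) | ε < ‖m - y‖} :=
      measurableSet_lt measurable_const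
        (measurable_norm.comp (measurable_const.sub measurable_id))
    calc ∫ y in F, M * (1 / ‖m - y‖ ^ ((d : ℝ) + 1))
        = ∫ y in F, ((φ m - φ y) / ‖m - y‖ ^ ((d : ℝ) + 1)
            - (ψ m - ψ y) / ‖m - y‖ ^ ((d : ℝ) + 1)) := by
          refine setIntegral_congr_fun hFo.measurableSet fun y hy => ?_
          have hyD : y ∉ D := by
            intro hyD
            have h1 := hR hyD
            rw [Metric.mem_ball, dist_comm, dist_eq_norm] at h1
            exact absurd h1 (not_lt.2 (le_of_lt hy))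
          rw [hφ.eq_zero y hyD, hψ.eq_zero y hyD, hM]
          ring
      _ ≤ ∫ y in {y : EuclideanSpace ℝ (Fin d) | ε < ‖m - y‖},
            ((φ m - φ y) / ‖m - y‖ ^ ((d : ℝ) + 1)
            - (ψ m - ψ y) / ‖m - y‖ ^ ((d : ℝ) + 1)) := by
          refine setIntegral_mono_set
            ((integrable_diff hφ.continuous (torsion_bounded hDb hφ) m hε.1).sub
              (integrable_diff hψ.continuous (torsion_bounded hDb hψ) m hε.1)) ?_ ?_
          · refine Eventually.of_forall fun y => ?_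
            simp only [Pi.zero_apply]
            rw [← sub_div]
            exact div_nonneg (by linarith [hglob y]) (by positivity)
          · exact Eventually.of_forall fun y hy => lt_trans hε.2 hy
  have : 0 < normConst d 1 * (∫ y in F, M * (1 / ‖m - y‖ ^ ((d : ℝ) + 1))) := mul_pos hc hδ
  linarith

/-- For every `d ≥ 1` and every bounded open convex set `D` of `ℝ^d`, each torsion function of `D`
for the half Laplacian is positive and concave on `D`, and it is the only one. -/
theorem result (d : ℕ) (hd : 1 ≤ d) (D : Set (EuclideanSpace ℝ (Fin d)))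
    (hDo : IsOpen D) (hDc : Convex ℝ D) (hDb : Bornology.IsBounded D)
    (φ : EuclideanSpace ℝ (Fin d) → ℝ) (h : IsTorsion d 1 D φ) :
    ConcaveOn ℝ D φ ∧ (∀ x ∈ D, 0 < φ x) ∧
      ∀ ψ : EuclideanSpace ℝ (Fin d) → ℝ, IsTorsion d 1 D ψ → ψ = φ :=
  ⟨torsion_concave hd hDo hDc hDb h, torsion_pos hDb h, fun _ hψ =>
    funext fun x => le_antisymm (torsion_le hd hDb hψ h x) (torsion_le hd hDb h hψ x)⟩

end Pool.Agent.Results.MP_ced2fd_an.TorsionConcave
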